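import Pool.Agent.Helper922.Bridge

set_option autoImplicit false

open AlgebraicGeometry CategoryTheory
open Pool.Agent.Helper922.VS

namespace Pool.Agent.Results.MP_947c53_ag.EssBase

/-- Over every algebraically closed field of characteristic zero there is a projective variety `X`
with a big, Bogomolov semistable vector sheaf `E` whose essential base locus is all of `X`. -/
theorem result (k : Type) [Field k] [IsAlgClosed k] [CharZero k] :
    ∃ (X : Scheme.{0}) (p : X ⟶ Spec (CommRingCat.of k)) (E : VectorSheaf X 2),
      IsProjectiveVariety p ∧ IsBig p E ∧ IsSemistable p E ∧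
      ∀ (P : Scheme.{0}) (π : P ⟶ X) (Q : InvQuot E π), IsProjectiveBundle Q →
        ∀ A : LineSheaf P, A.IsAmple → π '' essentialBaseLocus Q.L A = Set.univ :=
  ⟨Pool.Agent.Helper922.PP.XX k, Pool.Agent.Helper922.PP.strX k, Pool.Agent.Helper922.Bridge.NE k,
    Pool.Agent.Helper922.Bridge.projective k, Pool.Agent.Helper922.Bridge.isBig k,
    Pool.Agent.Helper922.Bridge.semistable k,
    fun _ π Q hQ A hA => Pool.Agent.Helper922.Bridge.baseLocus k π Q hQ A hA⟩

end Pool.Agent.Results.MP_947c53_ag.EssBase
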